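import Mathlib
import Pool.Agent.Helper42.Th.Max
import Pool.Agent.Helper31.PENT.Defs

/-!
A level set of a labelled graph with one negative edge: the edges which leave it are arranged in
one cycle, along which the labels of the faces rise.
-/

set_option autoImplicit false

namespace Pool.Agent.Helper31.CUT

open Pool.Agent.Helper42.Th

variable {E : Type} {Γ : CMap E} {δ : E} {Ω₁ Ω₂ : Type*} [LinearOrder Ω₁] [LinearOrder Ω₂]
  {f : E → Ω₁} {g : E → Ω₂} {S : Set E}

/-- The dart `d` leaves the set `S` of vertices. -/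
def Cut (Γ : CMap E) (S : Set E) (d : E) : Prop := d ∈ S ∧ Γ.flip d ∉ S

/-- A set of vertices which are higher than the others, and which the negative edge leaves. -/
structure Level (Γ : CMap E) (δ : E) (f : E → Ω₁) (S : Set E) : Prop where
  rot : ∀ d, Γ.rot d ∈ S ↔ d ∈ S
  high : ∀ d ∈ S, ∀ e ∉ S, f e < f d
  cut : Cut Γ S δ

/-- The cut dart `e` follows the cut dart `d`: they are on the same face. -/
def Next (Γ : CMap E) (S : Set E) (d e : E) : Prop :=
  Cut Γ S e ∧ ∃ n : ℕ, Γ.flip e = (Γ.dual.rot ^ (n + 1)) d ∧ ∀ i ≤ n, (Γ.dual.rot ^ i) d ∈ S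

/-- Functions of the faces. -/
lemma face_pow {T : Type*} (ℓ : E → T) (hℓ : ∀ d, ℓ (Γ.flip (Γ.rot d)) = ℓ d) (n : ℕ) (d : E) :
    ℓ ((Γ.dual.rot ^ n) d) = ℓ d := by
  induction n with
  | zero => rfl
  | succ n ih =>
    rw [pow_succ', Equiv.Perm.mul_apply, ← ih]
    exact hℓ _

lemma Next.face {T : Type*} {d e : E} (h : Next Γ S d e) (ℓ : E → T)
    (hℓ : ∀ d, ℓ (Γ.flip (Γ.rot d)) = ℓ d) : ℓ (Γ.flip e) = ℓ d := by
  obtain ⟨-, n, h1, -⟩ := h
  rw [h1]
  exact face_pow ℓ hℓ _ _

variable [Finite E]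

/-- Every cut dart is followed by another one. -/
lemma exists_next (hS : ∀ d, Γ.rot d ∈ S ↔ d ∈ S) {d : E} (hd : Cut Γ S d) :
    ∃ e, Next Γ S d e := by
  classical
  have hex : ∃ n : ℕ, (Γ.dual.rot ^ n) d ∉ S := by
    have h1 : 0 < orderOf Γ.dual.rot := orderOf_pos _
    refine ⟨orderOf Γ.dual.rot - 1, fun h => hd.2 ?_⟩
    have h2 : Γ.dual.rot ((Γ.dual.rot ^ (orderOf Γ.dual.rot - 1)) d) = d := by
      rw [← Equiv.Perm.mul_apply, ← pow_succ',
        show orderOf Γ.dual.rot - 1 + 1 = orderOf Γ.dual.rot by omega, pow_orderOf_eq_one]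
      rfl
    have h3 : Γ.flip (Γ.rot ((Γ.dual.rot ^ (orderOf Γ.dual.rot - 1)) d)) = d := h2
    have h4 : Γ.rot ((Γ.dual.rot ^ (orderOf Γ.dual.rot - 1)) d) = Γ.flip d := by
      rw [← h3, Γ.flip_flip, h3]
    rw [← h4, hS]
    exact h
  have h1 := Nat.find_spec hex
  have h0 : Nat.find hex ≠ 0 := by
    intro h0
    rw [h0] at h1
    exact h1 hd.1
  obtain ⟨n, hn⟩ : ∃ n, Nat.find hex = n + 1 := ⟨Nat.find hex - 1, by omega⟩
  rw [hn] at h1
  have h2 : ∀ i ≤ n, (Γ.dual.rot ^ i) d ∈ S := by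
    intro i hi
    by_contra h3
    have := Nat.find_min' hex h3
    omega
  refine ⟨Γ.flip ((Γ.dual.rot ^ (n + 1)) d), ⟨?_, ?_⟩, n, Γ.flip_flip _, h2⟩
  · rw [pow_succ', Equiv.Perm.mul_apply]
    change Γ.flip (Γ.flip (Γ.rot ((Γ.dual.rot ^ n) d))) ∈ S
    rw [Γ.flip_flip, hS]
    exact h2 n le_rfl
  · rw [Γ.flip_flip]
    exact h1

/-- The walk from `d` to `e` along the boundary of the level set, which does not pass `δ`. -/
inductive Walk (Γ : CMap E) (δ : E) (S : Set E) (d : E) : E → Prop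
  | refl : Walk Γ δ S d d
  | step (a e : E) (h : Walk Γ δ S d a) (hn : Next Γ S a e) (he : e ≠ δ) : Walk Γ δ S d e

omit [Finite E] in
lemma Walk.cut {d e : E} (h : Walk Γ δ S d e) (hd : Cut Γ S d) : Cut Γ S e := by
  induction h with
  | refl => exact hd
  | step a e _ hn _ _ => exact hn.1

omit [Finite E] in
/-- The labels of the faces rise along the boundary of the level set. -/
lemma step_le (h : Harm Γ δ f g) (L : Level Γ δ f S) {a e : E} (hn : Next Γ S a e)
    (he : e ≠ δ) : g a ≤ g e := by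
  have h1 : e ≠ Γ.flip δ := by
    rintro rfl
    exact L.cut.2 hn.1.1
  rw [← hn.face g h.g_rot]
  exact h.pos e he h1 (L.high _ hn.1.1 _ hn.1.2).le

omit [Finite E] in
lemma step_ne (h : Harm Γ δ f g) (L : Level Γ δ f S) {a e : E} (hn : Next Γ S a e)
    (he : e ≠ δ) : g a ≠ g e := by
  have h1 : e ≠ Γ.flip δ := by
    rintro rfl
    exact L.cut.2 hn.1.1
  rw [← hn.face g h.g_rot]
  intro h2
  exact (L.high _ hn.1.1 _ hn.1.2).ne (h.str e he h1 h2)

omit [Finite E] in
lemma Walk.le (h : Harm Γ δ f g) (L : Level Γ δ f S) {d e : E} (hw : Walk Γ δ S d e) :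
    g d ≤ g e := by
  induction hw with
  | refl => exact le_rfl
  | step a e _ hn he ih => exact ih.trans (step_le h L hn he)

/-- The walk from any cut dart arrives at `δ`. -/
lemma exists_last (h : Harm Γ δ f g) (L : Level Γ δ f S) {d : E} (hd : Cut Γ S d) :
    ∃ a, Walk Γ δ S d a ∧ Next Γ S a δ := by
  obtain ⟨a, ha, hmax⟩ := Set.exists_max_image {a | Walk Γ δ S d a} g (Set.toFinite _)
    ⟨d, Walk.refl⟩
  obtain ⟨e, he⟩ := exists_next L.rot (Walk.cut ha hd)
  by_cases h1 : e = δ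
  · subst h1
    exact ⟨a, ha, he⟩
  · exfalso
    have h2 := hmax e (Walk.step a e ha he h1)
    exact step_ne h L he h1 (le_antisymm (step_le h L he h1) h2)

/-- The order of the edges in which two paths cross the boundary of the level set.  The faces
with `p` are on one side of the first path together with `δ`, which leaves the level set at `e`,
and similarly for `q` and `e'`. -/
theorem cut_rule (h : Harm Γ δ f g) (L : Level Γ δ f S) (p q : E → Prop)
    (hp : ∀ d, p (Γ.flip (Γ.rot d)) ↔ p d) (hq : ∀ d, q (Γ.flip (Γ.rot d)) ↔ q d)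
    (hp1 : p δ) (hp2 : ¬ p (Γ.flip δ)) (hq2 : ¬ q (Γ.flip δ)) {e e' : E} (hee : e' ≠ e)
    (he : Cut Γ S e)
    (hpe : ∀ d, Cut Γ S d → d ≠ δ → d ≠ e → (p d ↔ p (Γ.flip d)))
    (hqe : ∀ d, Cut Γ S d → d ≠ δ → d ≠ e' → (q d ↔ q (Γ.flip d)))
    (hpq : ∀ d, p d → q d) : e ≠ δ → g e ≤ g (Γ.flip e') := by
  intro heδ
  -- the first path leaves the faces of `p` at `e`
  have h1 : p (Γ.flip e) := by
    by_contra hn
    -- otherwise `p` holds all the way
    have h2 : ∀ a, Walk Γ δ S δ a → p a := by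
      intro a ha
      induction ha with
      | refl => exact hp1
      | step a b hw hn' hb ih =>
        have h3 : p (Γ.flip b) := by
          have := hn'.face p (fun d => propext (hp d))
          rw [this]
          exact ih
        by_cases h4 : b = e
        · rw [h4] at h3
          exact absurd h3 hn
        · exact (hpe b hn'.1 hb h4).mpr h3
    obtain ⟨a, ha, hn'⟩ := exists_last h L L.cut
    have h3 := hn'.face p (fun d => propext (hp d))
    apply hp2
    rw [h3]
    exact h2 a ha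
  have h2 : q (Γ.flip e) := hpq _ h1
  have h3 : q e := (hqe e he heδ (Ne.symm hee)).mpr h2
  -- the second path comes later
  obtain ⟨a, ha, hn⟩ := exists_last h L he
  have h4 : ¬ q a := by
    have := hn.face q (fun d => propext (hq d))
    rw [← this]
    exact hq2
  have key : ∀ b, Walk Γ δ S e b → ¬ q b → g e ≤ g (Γ.flip e') := by
    intro b hb
    induction hb with
    | refl => exact fun h5 => absurd h3 h5
    | step b c hw hn' hc ih =>
      intro h5
      by_cases h6 : c = e'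
      · rw [← h6, hn'.face g h.g_rot]
        exact hw.le h L
      · apply ih
        have h7 := hn'.face q (fun d => propext (hq d))
        rw [← h7]
        exact fun h8 => h5 ((hqe c hn'.1 hc h6).mpr h8)
  exact key a ha h4

omit [Finite E] in
/-- The two sides of a cycle through the edge of `δ`, on a sphere. -/
lemma sides (hS : PENT.Sphere Γ) (c : E → ZMod 2) (h1 : ∀ d, c (Γ.flip d) = c d)
    (h2 : ∀ g : E → ZMod 2, (∀ d, g (Γ.rot d) = g d) → ∑ᶠ d, c d * g d = 0) (hδ : c δ = 1) :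
    ∃ p : E → Prop, (∀ d, p (Γ.flip (Γ.rot d)) ↔ p d) ∧ p δ ∧ ¬ p (Γ.flip δ) ∧
      ∀ d, (p d ↔ p (Γ.flip d)) ↔ c d = 0 := by
  obtain ⟨f, f1, f2⟩ := hS c h1 h2
  have key : ∀ x y z : ZMod 2, ((x = z ↔ y = z) ↔ x + y = 0) := by decide
  refine ⟨fun d => f d = f δ, fun d => ?_, rfl, ?_, fun d => ?_⟩
  · change f (Γ.flip (Γ.rot d)) = f δ ↔ f d = f δ
    rw [f1]
  · intro h
    have h3 := f2 δ
    rw [h, hδ] at h3
    have h4 : ∀ x : ZMod 2, 1 ≠ x + x := by decide
    exact h4 _ h3
  · rw [f2 d]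
    exact key _ _ _

end Pool.Agent.Helper31.CUT
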